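import Mathlib
import Pool.Agent.P8H20.EL.Fin6
set_option autoImplicit false

/-!
# The restriction conjecture on average over rotations, and for functions constant on ellipsoids

Let `n ≥ 3`, `d = n + 1`, let `E` be the extension operator of the truncated paraboloid in `ℝ^d`
and let `A` be a linear map of `ℝ^n` with `n` different nonzero singular values. In the full range
`q > 2d/(d-1)` of the conjecture we show, for all measurable functions `f` on `ℝ^n` with `|f| ≤ 1`,

  `∫_{O(n)} ‖E(f ∘ U ∘ A)‖_q^q dμ(U) ≤ C`,   `μ` the Haar probability measure,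

where `C` does not depend on `f`. If `f` is radial there is no average: the bound of the
conjecture holds for all functions `ξ ↦ a(|Aξ|)`, that is for all functions of the positive definite
quadratic form `|Aξ|²`. More generally the centre of the ellipsoids may be any point `v` with
`|v| ≤ R`, the functions may be cut off with polytopes with at most `N` faces, and superpositions
of such functions are allowed.
-/

namespace Pool.Agent.Results.MP_b7167f_an.EllipsoidalFunctions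

open MeasureTheory Set Complex
open scoped ENNReal NNReal

/-- The closed cube `[-1,1]^n`. -/
def cube (n : ℕ) : Set (EuclideanSpace ℝ (Fin n)) := {ξ | ∀ j, |ξ j| ≤ 1}

/-- The extension operator of the truncated paraboloid in `ℝ^(n+1)`:
`Ef(x,t) = ∫_{[-1,1]^n} f(ξ) exp(2πi(∑_j ξ_j x_j + |ξ|² t)) dξ`. -/
noncomputable def ext {n : ℕ} (f : EuclideanSpace ℝ (Fin n) → ℂ)
    (z : EuclideanSpace ℝ (Fin n) × ℝ) : ℂ :=
  ∫ ξ in cube n, f ξ *
    cexp (2 * Real.pi * I * ((∑ j, ξ j * z.1 j + (∑ j, ξ j ^ 2) * z.2 : ℝ) : ℂ))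

/-- The Borel sets of the orthogonal group. -/
noncomputable local instance borelO (n : ℕ) :
    MeasurableSpace (Matrix.orthogonalGroup (Fin n) ℝ) := borel _

/-- The product `U ξ` of an orthogonal matrix and a vector. -/
noncomputable def rot {n : ℕ} (U : Matrix.orthogonalGroup (Fin n) ℝ)
    (ξ : EuclideanSpace ℝ (Fin n)) : EuclideanSpace ℝ (Fin n) :=
  WithLp.toLp 2 ((U : Matrix (Fin n) (Fin n) ℝ).mulVec ξ.ofLp)

/-- The polytope `{ξ : ⟨ν_i, ξ⟩ < c_i for all i < N}`. -/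
def polytope {n N : ℕ} (ν : Fin N → EuclideanSpace ℝ (Fin n)) (c : Fin N → ℝ) :
    Set (EuclideanSpace ℝ (Fin n)) := {ξ | ∀ i, inner ℝ (ν i) ξ < c i}

open Pool.Agent.P8H66.QP (EP EX Nq)
open Pool.Agent.TH277.HT (ch ch_norm)
open Pool.Agent.P8H20.EL (dil pt oc act Go Gr Go_RF Gr_RF)

lemma cube_ae (n : ℕ) : cube n =ᵐ[volume] oc n := by
  have h1 : (pi univ fun _ : Fin n => Ioo (-1 : ℝ) 1) =ᵐ[volume] Icc (fun _ => -1) (fun _ => 1) := by
    have := Measure.univ_pi_Ioo_ae_eq_Icc (μ := fun _ : Fin n => (volume : Measure ℝ))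
      (f := fun _ => (-1 : ℝ)) (g := fun _ => 1)
    exact this
  have h2 := (PiLp.volume_preserving_ofLp (Fin n)).quasiMeasurePreserving.preimage_ae_eq h1
  have e1 : (fun ξ : EuclideanSpace ℝ (Fin n) => (WithLp.ofLp ξ : Fin n → ℝ)) ⁻¹'
      (pi univ fun _ : Fin n => Ioo (-1 : ℝ) 1) = {ξ | ∀ j, |ξ j| < 1} := by
    ext ξ
    simp [mem_pi, abs_lt]
  have e2 : (fun ξ : EuclideanSpace ℝ (Fin n) => (WithLp.ofLp ξ : Fin n → ℝ)) ⁻¹'
      (Icc (fun _ => -1) (fun _ => 1)) = cube n := by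
    ext ξ
    simp only [mem_preimage, mem_Icc, Pi.le_def, cube, mem_ofPred_eq, abs_le]
    exact ⟨fun h j => ⟨h.1 j, h.2 j⟩, fun h => ⟨fun j => (h j).1, fun j => (h j).2⟩⟩
  have e3 : oc n = {ξ : EuclideanSpace ℝ (Fin n) | ∀ j, |ξ j| < 1} := rfl
  rw [e3, ← e1, ← e2]
  exact h2.symm

lemma phase {n : ℕ} (ξ : EuclideanSpace ℝ (Fin n)) (z : EuclideanSpace ℝ (Fin n) × ℝ) :
    cexp (2 * Real.pi * I * ((∑ j, ξ j * z.1 j + (∑ j, ξ j ^ 2) * z.2 : ℝ) : ℂ)) =
      ch (inner ℝ ξ z.1 + ‖ξ‖ ^ 2 * z.2) := by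
  unfold ch
  congr 3
  rw [EuclideanSpace.real_norm_sq_eq]
  simp [PiLp.inner_apply, mul_comm]

lemma ext_eq {n : ℕ} (f g : EuclideanSpace ℝ (Fin n) → ℂ)
    (h1 : ∀ ξ, ξ ∈ oc n → f ξ = g ξ) (h2 : ∀ ξ, ξ ∉ oc n → g ξ = 0)
    (z : EuclideanSpace ℝ (Fin n) × ℝ) : ext f z = EP g z := by
  unfold ext EP EX
  rw [setIntegral_congr_set (cube_ae n), ← integral_indicator (Pool.Agent.P8H20.EL.oc_meas n)]
  apply integral_congr_ae
  refine ae_of_all _ fun ξ => ?_
  simp only
  by_cases h : ξ ∈ oc n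
  · rw [indicator_of_mem h, phase, h1 ξ h, mul_comm]
  · rw [indicator_of_notMem h, h2 ξ h, mul_zero]

lemma oc_norm {n : ℕ} (ξ : EuclideanSpace ℝ (Fin n)) (h : ξ ∈ oc n) : ‖ξ‖ ≤ Real.sqrt n := by
  rw [EuclideanSpace.norm_eq]
  apply Real.sqrt_le_sqrt
  calc ∑ j, ‖ξ j‖ ^ 2 ≤ ∑ _j : Fin n, (1 : ℝ) := by
        apply Finset.sum_le_sum
        intro j _
        have h1 : |ξ j| < 1 := h j
        rw [Real.norm_eq_abs]
        have := abs_nonneg (ξ j)
        nlinarith
    _ = n := by simp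

/-- **The restriction conjecture on average over rotations and for functions on ellipsoids.** -/
theorem result (n : ℕ) (hn : 3 ≤ n)
    (A : EuclideanSpace ℝ (Fin n) →ₗ[ℝ] EuclideanSpace ℝ (Fin n))
    (hA0 : ∀ i : Fin n, A.singularValues i ≠ 0)
    (hA : ∀ i j : Fin n, i ≠ j → A.singularValues i ≠ A.singularValues j)
    (q : ℝ) (hq : 2 * ((n : ℝ) + 1) / n < q) (N : ℕ) (R : ℝ) :
    (∃ C : ℝ≥0, ∀ (μ : Measure (Matrix.orthogonalGroup (Fin n) ℝ)) [IsProbabilityMeasure μ]
      [μ.IsMulRightInvariant] (S : Type) [MeasurableSpace S] (ρ : Measure S) [IsFiniteMeasure ρ]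
      (f : S → EuclideanSpace ℝ (Fin n) → ℂ) (v : S → EuclideanSpace ℝ (Fin n))
      (ν : S → Fin N → EuclideanSpace ℝ (Fin n)) (c : S → Fin N → ℝ),
      Measurable (Function.uncurry f) → Measurable v → Measurable ν → Measurable c →
      (∀ s ξ, ‖f s ξ‖ ≤ 1) → (∀ s, ‖v s‖ ≤ R) →
      ∫⁻ U, (∫⁻ z, ‖ext (fun ξ => ∫ s, (polytope (ν s) (c s)).indicator
        (fun ξ => f s (rot U (A (ξ - v s)))) ξ ∂ρ) z‖ₑ ^ q) ∂μ ≤ C * ρ univ ^ q) ∧
    (∃ C : ℝ≥0, ∀ (S : Type) [MeasurableSpace S] (ρ : Measure S) [IsFiniteMeasure ρ]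
      (a : S → ℝ → ℂ) (v : S → EuclideanSpace ℝ (Fin n))
      (ν : S → Fin N → EuclideanSpace ℝ (Fin n)) (c : S → Fin N → ℝ),
      Measurable (Function.uncurry a) → Measurable v → Measurable ν → Measurable c →
      (∀ s u, ‖a s u‖ ≤ 1) → (∀ s, ‖v s‖ ≤ R) →
      ∫⁻ z, ‖ext (fun ξ => ∫ s, (polytope (ν s) (c s)).indicator
        (fun ξ => a s ‖A (ξ - v s)‖) ξ ∂ρ) z‖ₑ ^ q ≤ C * ρ univ ^ q) := by
  obtain ⟨m, rfl⟩ : ∃ m, n = m + 2 := ⟨n - 2, by omega⟩
  have hm : 1 ≤ m := by omega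
  have hq' : 2 + 2 / ((m : ℝ) + 2) < q := by
    refine lt_of_eq_of_lt ?_ hq
    push_cast
    field_simp
  obtain ⟨b, W, hbW⟩ := Pool.Agent.P8H20.EL.svd A hA0
  -- scaling
  set r : ℝ := 1 + ‖LinearMap.toContinuousLinearMap A‖ * (Real.sqrt ((m + 2 : ℕ) : ℝ) + |R|)
    with hr
  have hr0 : 0 < r := by
    have h1 := norm_nonneg (LinearMap.toContinuousLinearMap A)
    have h2 := Real.sqrt_nonneg ((m + 2 : ℕ) : ℝ)
    have h3 := abs_nonneg R
    positivity
  have hAr : ∀ (v ξ : EuclideanSpace ℝ (Fin (m + 2))), ‖v‖ ≤ R → ξ ∈ oc (m + 2) →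
      ‖A (ξ - v)‖ ≤ r := by
    intro v ξ hv hξ
    have h1 := (LinearMap.toContinuousLinearMap A).le_opNorm (ξ - v)
    have h2 : ‖ξ - v‖ ≤ Real.sqrt ((m + 2 : ℕ) : ℝ) + |R| :=
      (norm_sub_le _ _).trans (add_le_add (oc_norm ξ hξ) (hv.trans (le_abs_self R)))
    have h3 : ‖A (ξ - v)‖ ≤ ‖LinearMap.toContinuousLinearMap A‖ *
        (Real.sqrt ((m + 2 : ℕ) : ℝ) + |R|) :=
      h1.trans (mul_le_mul_of_nonneg_left h2 (norm_nonneg _))
    rw [hr]
    linarith
  set d : Fin (m + 2) → ℝ := fun i => A.singularValues i / r with hd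
  have hd0 : ∀ j, 0 < d j := fun j =>
    div_pos ((A.singularValues_pos_iff_ne_zero _).2 (hA0 j)) hr0
  have hdinj : Function.Injective d := by
    intro i j hij
    by_contra hne
    apply hA i j hne
    simp only [hd] at hij
    rwa [div_left_inj' hr0.ne'] at hij
  have hWd : ∀ ξ, A ξ = r • W (dil d (b.repr ξ)) := by
    intro ξ
    rw [hbW, ← map_smul]
    congr 1
    ext j
    simp only [dil, hd, PiLp.smul_apply, smul_eq_mul]
    field_simp
  have hnorm : ∀ ξ, ‖A ξ‖ = r * ‖dil d (b.repr ξ)‖ := by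
    intro ξ
    rw [hWd, norm_smul, Real.norm_eq_abs, abs_of_pos hr0, W.norm_map]
  have hin : ∀ (v ξ : EuclideanSpace ℝ (Fin (m + 2))), ‖v‖ ≤ R → ξ ∈ oc (m + 2) →
      ‖dil d (b.repr (ξ - v))‖ ≤ 1 := by
    intro v ξ hv hξ
    have h1 := hAr v ξ hv hξ
    rw [hnorm] at h1
    nlinarith
  obtain ⟨C, hC, H⟩ := Pool.Agent.P8H20.EL.super hm d hd0 hdinj R N q hq'
  constructor
  · refine ⟨C.toNNReal, ?_⟩
    intro μ _ _ S _ ρ _ f v ν c hf hv hν hc hf1 hvR
    rw [ENNReal.coe_toNNReal hC]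
    have h1 := H μ ρ (fun s => Go (f s) r W) ?_ (fun s => Go_RF (hf.comp measurable_prodMk_left)
      (hf1 s) r W μ) b v ν c hv hν hc hvR
    · refine le_trans (le_of_eq ?_) h1
      refine lintegral_congr fun U => ?_
      unfold Nq
      refine lintegral_congr fun z => ?_
      congr 2
      refine ext_eq _ _ (fun ξ hξ => ?_) (fun ξ hξ => ?_) z
      · refine integral_congr_ae (ae_of_all _ fun s => ?_)
        simp only
        by_cases hp : ξ ∈ polytope (ν s) (c s)
        · rw [indicator_of_mem hp, indicator_of_mem (show ξ ∈ pt (ν s) (c s) from ⟨hξ, hp⟩)]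
          unfold Go
          rw [if_pos (hin (v s) ξ (hvR s) hξ), hWd]
          have h2 : rot U (r • W (dil d (b.repr (ξ - v s)))) =
              r • act U (W (dil d (b.repr (ξ - v s)))) := by
            have h3 : ∀ x : EuclideanSpace ℝ (Fin (m + 2)), rot U x = act U x := fun x => rfl
            rw [h3]
            unfold act
            rw [map_smul]
          rw [h2]
        · rw [indicator_of_notMem hp, indicator_of_notMem (fun h => hp h.2)]
      · have h2 : ∀ s, (pt (ν s) (c s)).indicator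
            (fun ξ => Go (f s) r W U (dil d (b.repr (ξ - v s)))) ξ = 0 :=
          fun s => indicator_of_notMem (fun h => hξ h.1) _
        simp only [h2, integral_zero]
    · -- measurability
      have e1 : Measurable fun p : S × Matrix.orthogonalGroup (Fin (m + 2)) ℝ ×
          EuclideanSpace ℝ (Fin (m + 2)) => (p.2.1, W p.2.2) := by fun_prop
      have e2 : Measurable fun p : S × Matrix.orthogonalGroup (Fin (m + 2)) ℝ ×
          EuclideanSpace ℝ (Fin (m + 2)) => act p.2.1 (W p.2.2) :=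
        (Pool.Agent.P8H20.EL.act_meas.comp e1 :)
      have e3 : Measurable fun p : S × Matrix.orthogonalGroup (Fin (m + 2)) ℝ ×
          EuclideanSpace ℝ (Fin (m + 2)) => (p.1, r • act p.2.1 (W p.2.2)) :=
        measurable_fst.prodMk (e2.const_smul r)
      have e4 : Measurable fun p : S × Matrix.orthogonalGroup (Fin (m + 2)) ℝ ×
          EuclideanSpace ℝ (Fin (m + 2)) => f p.1 (r • act p.2.1 (W p.2.2)) := (hf.comp e3 :)
      unfold Go
      exact Measurable.ite (measurableSet_le (by fun_prop) measurable_const) e4 measurable_const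
  · refine ⟨C.toNNReal, ?_⟩
    intro S _ ρ _ a v ν c ha hv hν hc ha1 hvR
    rw [ENNReal.coe_toNNReal hC]
    have h1 := H (Measure.dirac ()) ρ (fun s => Gr (a s) r) ?_
      (fun s => Gr_RF (ha.comp measurable_prodMk_left) (ha1 s) r) b v ν c hv hν hc hvR
    · rw [lintegral_dirac] at h1
      refine le_trans (le_of_eq ?_) h1
      unfold Nq
      refine lintegral_congr fun z => ?_
      congr 2
      refine ext_eq _ _ (fun ξ hξ => ?_) (fun ξ hξ => ?_) z
      · refine integral_congr_ae (ae_of_all _ fun s => ?_)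
        simp only
        by_cases hp : ξ ∈ polytope (ν s) (c s)
        · rw [indicator_of_mem hp, indicator_of_mem (show ξ ∈ pt (ν s) (c s) from ⟨hξ, hp⟩)]
          unfold Gr
          rw [if_pos (hin (v s) ξ (hvR s) hξ), hnorm]
        · rw [indicator_of_notMem hp, indicator_of_notMem (fun h => hp h.2)]
      · have h2 : ∀ s, (pt (ν s) (c s)).indicator
            (fun ξ => Gr (a s) r () (dil d (b.repr (ξ - v s)))) ξ = 0 :=
          fun s => indicator_of_notMem (fun h => hξ h.1) _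
        simp only [h2, integral_zero]
    · have e3 : Measurable fun p : S × Unit × EuclideanSpace ℝ (Fin (m + 2)) =>
          (p.1, r * ‖p.2.2‖) := by fun_prop
      have e4 : Measurable fun p : S × Unit × EuclideanSpace ℝ (Fin (m + 2)) =>
          a p.1 (r * ‖p.2.2‖) := (ha.comp e3 :)
      unfold Gr
      exact Measurable.ite (measurableSet_le (by fun_prop) measurable_const) e4 measurable_const

end Pool.Agent.Results.MP_b7167f_an.EllipsoidalFunctions
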