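import Mathlib
import Pool.Agent.P8H66.QP.N
set_option autoImplicit false

/-!
# The restriction conjecture for rough ridge functions with arbitrary quadratic phases

Let `d = n + 1 ≥ 3` and let `E` be the extension operator of the truncated paraboloid. The theorem
is the bound of the restriction conjecture in the full range `q > 2d/(d-1)` for

  `f(ξ) = a(⟨ω, ξ⟩) e^{2πi(⟨ξ, Bξ⟩ + ⟨y, ξ⟩)}` on `P`,   `f = 0` off `P`,

with a constant which depends only on `q`, `d` and `N`: here `a` is an arbitrary measurable function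
with `|a| ≤ 1`, `ω` and `y` are arbitrary vectors, `B` is an arbitrary real symmetric matrix (of any
size: nothing is assumed on its norm) and `P` is an arbitrary convex polytope with at most `N` faces.
The same holds for superpositions `∫ f_s dρ(s)` of such functions, with the constant `C ρ(S)`.
-/

namespace Pool.Agent.Results.MP_b7167f_an.QuadraticPhases

open MeasureTheory Set Complex
open scoped ENNReal NNReal

/-- The closed cube `[-1,1]^n`. -/
def cube (n : ℕ) : Set (EuclideanSpace ℝ (Fin n)) := {ξ | ∀ j, |ξ j| ≤ 1}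

/-- The extension operator of the truncated paraboloid in `ℝ^(n+1)`:
`Ef(x,t) = ∫_{[-1,1]^n} f(ξ) exp(2πi(∑_j ξ_j x_j + |ξ|² t)) dξ`. -/
noncomputable def ext {n : ℕ} (f : EuclideanSpace ℝ (Fin n) → ℂ)
    (z : EuclideanSpace ℝ (Fin n) × ℝ) : ℂ :=
  ∫ ξ in cube n, f ξ *
    cexp (2 * Real.pi * I * ((∑ j, ξ j * z.1 j + (∑ j, ξ j ^ 2) * z.2 : ℝ) : ℂ))

/-- `g(ξ) = a(⟨ω, ξ⟩) e^{2πi(⟨ξ, Bξ⟩ + ⟨y, ξ⟩)}` on the polytope `{ξ : ⟨ν_i, ξ⟩ < c_i, i < N}` and
`g = 0` elsewhere, where `a` is measurable, `|a| ≤ 1`, and `B` is symmetric. -/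
def IsAtom {n : ℕ} (N : ℕ) (g : EuclideanSpace ℝ (Fin n) → ℂ) : Prop :=
  ∃ (a : ℝ → ℂ) (ω y : EuclideanSpace ℝ (Fin n))
    (B : EuclideanSpace ℝ (Fin n) →ₗ[ℝ] EuclideanSpace ℝ (Fin n))
    (ν : Fin N → EuclideanSpace ℝ (Fin n)) (c : Fin N → ℝ),
    Measurable a ∧ (∀ u, ‖a u‖ ≤ 1) ∧ B.IsSymmetric ∧
    g = {ξ | ∀ i, inner ℝ (ν i) ξ < c i}.indicator fun ξ =>
      a (inner ℝ ω ξ) * cexp (2 * Real.pi * I * ((inner ℝ ξ (B ξ) + inner ℝ y ξ : ℝ) : ℂ))

open Pool.Agent.P8H66.QP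
open Pool.Agent.TH277.HT (ch ch_norm ch_enorm)

lemma cube_meas (n : ℕ) : MeasurableSet (cube n) := by
  have : cube n = ⋂ j, {ξ : EuclideanSpace ℝ (Fin n) | |ξ j| ≤ 1} := by
    ext ξ; simp [cube]
  rw [this]
  exact MeasurableSet.iInter fun j => measurableSet_le (by fun_prop) measurable_const

lemma cube_ae (n : ℕ) : cube n =ᵐ[volume] {ξ : EuclideanSpace ℝ (Fin n) | ∀ j, |ξ j| < 1} := by
  have h1 : (pi univ fun _ : Fin n => Ioo (-1 : ℝ) 1) =ᵐ[volume] Icc (fun _ => -1) (fun _ => 1) := by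
    have := Measure.univ_pi_Ioo_ae_eq_Icc (μ := fun _ : Fin n => (volume : Measure ℝ))
      (f := fun _ => (-1 : ℝ)) (g := fun _ => 1)
    exact this
  have h2 := (PiLp.volume_preserving_ofLp (Fin n)).quasiMeasurePreserving.preimage_ae_eq h1
  have e1 : (fun ξ : EuclideanSpace ℝ (Fin n) => (WithLp.ofLp ξ : Fin n → ℝ)) ⁻¹'
      (pi univ fun _ : Fin n => Ioo (-1 : ℝ) 1) = {ξ | ∀ j, |ξ j| < 1} := by
    ext ξ
    simp [mem_pi, abs_lt]
  have e2 : (fun ξ : EuclideanSpace ℝ (Fin n) => (WithLp.ofLp ξ : Fin n → ℝ)) ⁻¹'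
      (Icc (fun _ => -1) (fun _ => 1)) = cube n := by
    ext ξ
    simp only [mem_preimage, mem_Icc, Pi.le_def, cube, mem_ofPred_eq, abs_le]
    exact ⟨fun h j => ⟨h.1 j, h.2 j⟩, fun h => ⟨fun j => (h j).1, fun j => (h j).2⟩⟩
  rw [← e1, ← e2]
  exact h2.symm

lemma cube_vol (n : ℕ) : volume (cube n) ≠ ∞ := by
  have hsub : cube n ⊆ Metric.closedBall (0 : EuclideanSpace ℝ (Fin n)) (Real.sqrt n) := by
    intro ξ hξ
    rw [mem_closedBall_zero_iff, EuclideanSpace.norm_eq]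
    refine Real.sqrt_le_sqrt ?_
    have : ∑ i : Fin n, ‖ξ i‖ ^ 2 ≤ ∑ i : Fin n, (1 : ℝ) := by
      refine Finset.sum_le_sum fun i _ => ?_
      rw [Real.norm_eq_abs]
      have h := hξ i
      have h0 := abs_nonneg (ξ i)
      nlinarith
    rw [Finset.sum_const, Finset.card_univ, Fintype.card_fin, nsmul_eq_mul, mul_one] at this
    exact this
  exact ((measure_mono hsub).trans_lt measure_closedBall_lt_top).ne

lemma phase {n : ℕ} (ξ : EuclideanSpace ℝ (Fin n)) (z : EuclideanSpace ℝ (Fin n) × ℝ) :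
    cexp (2 * Real.pi * I * ((∑ j, ξ j * z.1 j + (∑ j, ξ j ^ 2) * z.2 : ℝ) : ℂ)) =
      ch (inner ℝ ξ z.1 + ‖ξ‖ ^ 2 * z.2) := by
  unfold ch
  congr 3
  rw [EuclideanSpace.real_norm_sq_eq]
  simp [PiLp.inner_apply, mul_comm]

lemma phase_meas {n : ℕ} {α : Type*} [MeasurableSpace α] (u : α → EuclideanSpace ℝ (Fin n))
    (z : α → EuclideanSpace ℝ (Fin n) × ℝ) (hu : Measurable u) (hz : Measurable z) :
    Measurable fun r => cexp (2 * Real.pi * I *
      ((∑ j, u r j * (z r).1 j + (∑ j, u r j ^ 2) * (z r).2 : ℝ) : ℂ)) := by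
  have h1 : ∀ j, Measurable fun r => u r j := fun j =>
    (by fun_prop : Measurable fun ξ : EuclideanSpace ℝ (Fin n) => ξ j).comp hu
  have h2 : ∀ j, Measurable fun r => (z r).1 j := fun j =>
    (by fun_prop : Measurable fun ξ : EuclideanSpace ℝ (Fin n) => ξ j).comp (measurable_fst.comp hz)
  have h3 : Measurable fun r => (z r).2 := measurable_snd.comp hz
  apply Complex.measurable_exp.comp
  apply Measurable.const_mul
  apply Complex.measurable_ofReal.comp
  apply Measurable.add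
  · exact Finset.measurable_fun_sum _ fun j _ => (h1 j).mul (h2 j)
  · exact (Finset.measurable_fun_sum _ fun j _ => (h1 j).pow_const 2).mul h3

/-- **The restriction conjecture for rough ridge functions with arbitrary quadratic phases.** -/
theorem result (n : ℕ) (hn : 2 ≤ n) (N : ℕ) (q : ℝ) (hq : 2 * ((n : ℝ) + 1) / n < q) :
    ∃ C : ℝ≥0, ∀ (S : Type) [MeasurableSpace S] (ρ : Measure S) [IsFiniteMeasure ρ]
      (g : S → EuclideanSpace ℝ (Fin n) → ℂ),
      Measurable (Function.uncurry g) → (∀ s, IsAtom N (g s)) →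
      ∫⁻ z : EuclideanSpace ℝ (Fin n) × ℝ, ‖ext (fun ξ => ∫ s, g s ξ ∂ρ) z‖ₑ ^ q
        ≤ C * ρ univ ^ q := by
  obtain ⟨m, rfl⟩ : ∃ m, n = m + 1 := ⟨n - 1, by omega⟩
  have hm : 1 ≤ m := by omega
  have hq' : 2 + 2 / ((m : ℝ) + 1) < q := by
    refine lt_of_eq_of_lt ?_ hq
    push_cast
    field_simp
  have hq1 : 1 ≤ q := by
    have : 0 < 2 / ((m : ℝ) + 1) := by positivity
    linarith
  have hq0 : 0 < q := by linarith
  obtain ⟨C, hC, H⟩ := mainN hm N q hq'
  refine ⟨C.toNNReal, ?_⟩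
  intro S _ ρ _ g hg hat
  rw [ENNReal.coe_toNNReal hC]
  -- the bound for the atoms
  have hatom : ∀ s, ∫⁻ z : EuclideanSpace ℝ (Fin (m + 1)) × ℝ, ‖ext (g s) z‖ₑ ^ q ≤ C := by
    intro s
    obtain ⟨a, ω, y, B, ν, c, ham, hab, hB, hgs⟩ := hat s
    refine le_trans (le_of_eq ?_) (H a ω y B ν c ⟨ham, hab⟩ hB)
    unfold Nq
    apply lintegral_congr
    intro z
    congr 2
    unfold ext EP EX
    rw [setIntegral_congr_set (cube_ae (m + 1)), ← integral_indicator]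
    · apply integral_congr_ae
      refine ae_of_all _ fun ξ => ?_
      simp only
      rw [hgs]
      by_cases h1 : ∀ j, |ξ j| < 1
      · rw [indicator_of_mem (show ξ ∈ {ξ : EuclideanSpace ℝ (Fin (m + 1)) | ∀ j, |ξ j| < 1}
          from h1), phase]
        by_cases h2 : ∀ i, inner ℝ (ν i) ξ < c i
        · rw [indicator_of_mem (show ξ ∈ {ξ : EuclideanSpace ℝ (Fin (m + 1)) |
            ∀ i, inner ℝ (ν i) ξ < c i} from h2), indicator_of_mem (show ξ ∈
            {ξ : EuclideanSpace ℝ (Fin (m + 1)) | (∀ j, |ξ j| < 1) ∧ ∀ i, inner ℝ (ν i) ξ < c i}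
            from ⟨h1, h2⟩)]
          unfold att
          rw [mul_comm]
          rfl
        · rw [indicator_of_notMem (show ξ ∉ {ξ : EuclideanSpace ℝ (Fin (m + 1)) |
            ∀ i, inner ℝ (ν i) ξ < c i} from h2), indicator_of_notMem (fun h => h2 h.2), zero_mul,
            mul_zero]
      · rw [indicator_of_notMem (show ξ ∉ {ξ : EuclideanSpace ℝ (Fin (m + 1)) | ∀ j, |ξ j| < 1}
          from h1), indicator_of_notMem (fun h => h1 h.1), mul_zero]
    · have : {ξ : EuclideanSpace ℝ (Fin (m + 1)) | ∀ j, |ξ j| < 1} =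
          ⋂ j, {ξ : EuclideanSpace ℝ (Fin (m + 1)) | |ξ j| < 1} := by
        ext ξ; simp
      rw [this]
      exact MeasurableSet.iInter fun j => measurableSet_lt (by fun_prop) measurable_const
  have hb : ∀ s ξ, ‖g s ξ‖ ≤ 1 := by
    intro s ξ
    obtain ⟨a, ω, y, B, ν, c, ham, hab, hB, hgs⟩ := hat s
    rw [hgs]
    by_cases h2 : ξ ∈ {ξ : EuclideanSpace ℝ (Fin (m + 1)) | ∀ i, inner ℝ (ν i) ξ < c i}
    · rw [indicator_of_mem h2, norm_mul]
      have h3 : ‖cexp (2 * Real.pi * I * ((inner ℝ ξ (B ξ) + inner ℝ y ξ : ℝ) : ℂ))‖ = 1 :=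
        ch_norm (inner ℝ ξ (B ξ) + inner ℝ y ξ)
      rw [h3, mul_one]
      exact hab _
    · rw [indicator_of_notMem h2, norm_zero]
      exact zero_le_one
  have hfm : IsFiniteMeasure (volume.restrict (cube (m + 1))) :=
    ⟨by rw [Measure.restrict_apply_univ]; exact lt_top_iff_ne_top.2 (cube_vol _)⟩
  -- Fubini
  have hg2 : Measurable fun p : S × EuclideanSpace ℝ (Fin (m + 1)) => g p.1 p.2 := hg
  have hfub : ∀ z, ext (fun ξ => ∫ s, g s ξ ∂ρ) z = ∫ s, ext (g s) z ∂ρ := by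
    intro z
    have hi : Integrable (Function.uncurry fun (s : S) (ξ : EuclideanSpace ℝ (Fin (m + 1))) =>
        g s ξ * cexp (2 * Real.pi * I * ((∑ j, ξ j * z.1 j + (∑ j, ξ j ^ 2) * z.2 : ℝ) : ℂ)))
        (ρ.prod (volume.restrict (cube (m + 1)))) := by
      have h0 : Measurable fun p : S × EuclideanSpace ℝ (Fin (m + 1)) => g p.1 p.2 *
          cexp (2 * Real.pi * I * ((∑ j, p.2 j * z.1 j + (∑ j, p.2 j ^ 2) * z.2 : ℝ) : ℂ)) :=
        hg2.mul (phase_meas (fun p : S × EuclideanSpace ℝ (Fin (m + 1)) => p.2) (fun _ => z)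
          measurable_snd measurable_const)
      apply Integrable.of_bound (C := 1) h0.aestronglyMeasurable
      refine ae_of_all _ fun p => ?_
      simp only [Function.uncurry]
      rw [norm_mul, phase, ch_norm, mul_one]
      exact hb _ _
    have hs := integral_integral_swap hi
    unfold ext
    rw [hs]
    apply integral_congr_ae
    refine ae_of_all _ fun ξ => ?_
    simp only
    rw [integral_mul_const]
  have hjm : Measurable fun p : (EuclideanSpace ℝ (Fin (m + 1)) × ℝ) × S => ext (g p.2) p.1 := by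
    have h0 : Measurable fun r : ((EuclideanSpace ℝ (Fin (m + 1)) × ℝ) × S) ×
        EuclideanSpace ℝ (Fin (m + 1)) => g r.1.2 r.2 * cexp (2 * Real.pi * I *
          ((∑ j, r.2 j * r.1.1.1 j + (∑ j, r.2 j ^ 2) * r.1.1.2 : ℝ) : ℂ)) :=
      (hg2.comp ((measurable_snd.comp measurable_fst).prodMk measurable_snd)).mul
        (phase_meas (fun r : ((EuclideanSpace ℝ (Fin (m + 1)) × ℝ) × S) ×
          EuclideanSpace ℝ (Fin (m + 1)) => r.2) (fun r => r.1.1) measurable_snd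
          (measurable_fst.comp measurable_fst))
    have h1 : StronglyMeasurable (Function.uncurry fun
        (p : (EuclideanSpace ℝ (Fin (m + 1)) × ℝ) × S) (ξ : EuclideanSpace ℝ (Fin (m + 1))) =>
        g p.2 ξ * cexp (2 * Real.pi * I *
          ((∑ j, ξ j * p.1.1 j + (∑ j, ξ j ^ 2) * p.1.2 : ℝ) : ℂ))) := h0.stronglyMeasurable
    exact (h1.integral_prod_right (ν := volume.restrict (cube (m + 1)))).measurable
  -- Hölder
  have hhol : ∀ z, ‖ext (fun ξ => ∫ s, g s ξ ∂ρ) z‖ₑ ^ q ≤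
      ρ univ ^ (q - 1) * ∫⁻ s, ‖ext (g s) z‖ₑ ^ q ∂ρ := by
    intro z
    have hzm : Measurable fun s => ‖ext (g s) z‖ₑ :=
      (hjm.comp (by fun_prop : Measurable fun s : S => (z, s))).enorm
    have h1 : ‖ext (fun ξ => ∫ s, g s ξ ∂ρ) z‖ₑ ≤ ∫⁻ s, ‖ext (g s) z‖ₑ ∂ρ := by
      rw [hfub]
      exact enorm_integral_le_lintegral_enorm _
    have h2 : ∫⁻ s, ‖ext (g s) z‖ₑ ∂ρ ≤
        ρ univ ^ (1 - 1 / q) * (∫⁻ s, ‖ext (g s) z‖ₑ ^ q ∂ρ) ^ (1 / q) := by
      have h3 := ENNReal.lintegral_mul_norm_pow_le (μ := ρ)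
        (f := fun _ => 1) (g := fun s => ‖ext (g s) z‖ₑ ^ q)
        aemeasurable_const (hzm.pow_const q).aemeasurable
        (p := 1 - 1 / q) (q := 1 / q) (by
          rw [sub_nonneg, div_le_one hq0]
          exact hq1) (by positivity) (by ring)
      simp only [ENNReal.one_rpow, one_mul, lintegral_const] at h3
      refine le_trans (le_of_eq ?_) h3
      apply lintegral_congr
      intro s
      rw [← ENNReal.rpow_mul, mul_one_div_cancel hq0.ne', ENNReal.rpow_one]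
    calc ‖ext (fun ξ => ∫ s, g s ξ ∂ρ) z‖ₑ ^ q
        ≤ (ρ univ ^ (1 - 1 / q) * (∫⁻ s, ‖ext (g s) z‖ₑ ^ q ∂ρ) ^ (1 / q)) ^ q := by
          gcongr
          exact h1.trans h2
      _ = _ := by
          rw [ENNReal.mul_rpow_of_nonneg _ _ hq0.le, ← ENNReal.rpow_mul, ← ENNReal.rpow_mul,
            one_div_mul_cancel hq0.ne', ENNReal.rpow_one]
          congr 2
          field_simp
  calc ∫⁻ z : EuclideanSpace ℝ (Fin (m + 1)) × ℝ, ‖ext (fun ξ => ∫ s, g s ξ ∂ρ) z‖ₑ ^ q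
      ≤ ∫⁻ z : EuclideanSpace ℝ (Fin (m + 1)) × ℝ,
          ρ univ ^ (q - 1) * ∫⁻ s, ‖ext (g s) z‖ₑ ^ q ∂ρ := lintegral_mono hhol
    _ = ρ univ ^ (q - 1) * ∫⁻ z : EuclideanSpace ℝ (Fin (m + 1)) × ℝ,
          ∫⁻ s, ‖ext (g s) z‖ₑ ^ q ∂ρ :=
        lintegral_const_mul' _ _ (ENNReal.rpow_ne_top_of_nonneg (by linarith)
          (measure_ne_top ρ univ))
    _ = ρ univ ^ (q - 1) * ∫⁻ s, (∫⁻ z : EuclideanSpace ℝ (Fin (m + 1)) × ℝ,
          ‖ext (g s) z‖ₑ ^ q) ∂ρ := by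
        congr 1
        exact lintegral_lintegral_swap (hjm.enorm.pow_const q).aemeasurable
    _ ≤ ρ univ ^ (q - 1) * ∫⁻ _s, C ∂ρ := by
        gcongr with s
        exact hatom s
    _ = C * ρ univ ^ q := by
        rw [lintegral_const, mul_comm C (ρ univ), ← mul_assoc, mul_comm _ C]
        congr 1
        nth_rewrite 2 [← ENNReal.rpow_one (ρ univ)]
        rw [← ENNReal.rpow_add_of_nonneg _ _ (by linarith) zero_le_one]
        simp

end Pool.Agent.Results.MP_b7167f_an.QuadraticPhases
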