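import Mathlib
import Pool.Agent.P8H75.RP.Eqv2
set_option autoImplicit false

/-!
# The restriction conjecture for the paraboloid on random sets of positions

Let `d = n + 1 ≥ 2` and let `E` be the extension operator of the truncated paraboloid in `ℝ^d`. The
restriction conjecture is equivalent to `∫_{B_R} |Ef|^p ≤ C_ε R^ε` for all `|f| ≤ 1` at the critical
exponent `p = 2d/(d-1)` (the removal of `R^ε` is a theorem of Tao, not used here).

We show that the union `S` of a typical set of `k` among `N` given disjoint cells of positions in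
`B_R` samples the functions `Ef` for ALL bounded `f` at the same time and for all `p ≥ 2`: up to
constants and up to an error `κ (log R)³`, where `κ` bounds the volume of a cell, the integral of
`|Ef|^p` over `S` is the proportion `k/N` of the integral over all the cells, and the same holds for
the superlevel sets of `|Ef|`. Consequently, for unit cubes,

* for all but a proportion `R^(-A)` of the sets of unit cubes of density `τ ≤ R^(-1/2)`, one has
  `∫_S |Ef|^p ≤ C (log R)³` for all `|f| ≤ 1` at the critical exponent `p = 2d/(d-1)`;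
* the bound `R^(σ + ε)` for the full integral over the window `[-R,R)^d` is equivalent to the bound
  `R^ε` on almost all sets of unit cubes of density `R^(-σ)`, and already to the bound `R^ε` on a
  polynomially small proportion of these sets. So the (local) restriction conjecture is equivalent
  to the bound `R^ε` on such sets for every density `R^(-σ)`, `σ > 0`.

The proof uses the sampling method of Maurey for the functions `Ef`, a union bound over all samples,
two-sided concentration for sums over random sets, and a level set argument.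
-/

namespace Pool.Agent.Results.MP_b7167f_an.RandomPositions

open MeasureTheory Set Complex
open scoped ENNReal NNReal RealInnerProductSpace

/-- The closed cube `[-1,1]^n`. -/
def cube (n : ℕ) : Set (EuclideanSpace ℝ (Fin n)) := {ξ | ∀ j, |ξ j| ≤ 1}

/-- The extension operator of the truncated paraboloid in `ℝ^(n+1)`:
`Ef(x) = ∫_{[-1,1]^n} f(ξ) exp(2πi(∑_{j<n} ξ_j x_j + |ξ|² x_n)) dξ`. -/
noncomputable def ext {n : ℕ} (f : EuclideanSpace ℝ (Fin n) → ℂ)
    (x : EuclideanSpace ℝ (Fin (n + 1))) : ℂ :=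
  ∫ ξ in cube n, f ξ *
    cexp (2 * Real.pi * I * ((∑ j, ξ j * x j.castSucc + (∑ j, ξ j ^ 2) * x (Fin.last n) : ℝ) : ℂ))

/-- `S ⊆ Ω` samples all the functions `Ef`, `|f| ≤ 1`, up to constants with the proportion `τ`, with
errors `κ (log R)² / l²` for the superlevel sets and `κ (log R)³` for the powers. -/
def Samples (n : ℕ) (B C R κ τ : ℝ) (S Ω : Set (EuclideanSpace ℝ (Fin (n + 1)))) : Prop :=
  ∀ f : EuclideanSpace ℝ (Fin n) → ℂ, Measurable f → (∀ ξ, ‖f ξ‖ ≤ 1) →
    (∀ l : ℝ, R ^ (-B) ≤ l →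
      volume.real (S ∩ {x | l < ‖ext f x‖}) ≤
          C * (τ * volume.real (Ω ∩ {x | l / 4 < ‖ext f x‖}) + κ * Real.log R ^ 2 / l ^ 2) ∧
        τ * volume.real (Ω ∩ {x | l < ‖ext f x‖}) ≤
          C * (volume.real (S ∩ {x | l / 4 < ‖ext f x‖}) + κ * Real.log R ^ 2 / l ^ 2)) ∧
    (∀ p : ℝ, 2 ≤ p →
      ∫ x in S, ‖ext f x‖ ^ p ≤
          C ^ p * (τ * (∫ x in Ω, ‖ext f x‖ ^ p) + κ * Real.log R ^ 3) ∧
        τ * ∫ x in Ω, ‖ext f x‖ ^ p ≤
          C ^ p * ((∫ x in S, ‖ext f x‖ ^ p) + κ * Real.log R ^ 3))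

/-- The `p`-th power of the norm of `E` from `L^∞` to `L^p(S)`: the supremum of `∫_S |Ef|^p` over
the measurable functions `f` with `|f| ≤ 1`. -/
noncomputable def normPow {n : ℕ} (p : ℝ) (S : Set (EuclideanSpace ℝ (Fin (n + 1)))) : ℝ≥0∞ :=
  ⨆ (f : EuclideanSpace ℝ (Fin n) → ℂ) (_ : Measurable f ∧ ∀ ξ, ‖f ξ‖ ≤ 1),
    ∫⁻ x in S, ‖ext f x‖ₑ ^ p

/-- The window `[-R,R)^d`. -/
def window (d R : ℕ) : Set (EuclideanSpace ℝ (Fin d)) := {x | ∀ i, -(R : ℝ) ≤ x i ∧ x i < R}

/-- The unit cube with index `j`. The `(2R)^d` unit cubes tile the window. -/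
def unitCube {d : ℕ} (R : ℕ) (j : Fin d → Fin (2 * R)) : Set (EuclideanSpace ℝ (Fin d)) :=
  {x | ∀ i, ((j i : ℕ) : ℝ) ≤ x i + R ∧ x i + R < (j i : ℕ) + 1}

/-- The number of unit cubes at density `R^(-σ)`, up to a constant: `⌈R^(n+1-σ)⌉`. -/
noncomputable def number (n : ℕ) (σ : ℝ) (R : ℕ) : ℕ := ⌈(R : ℝ) ^ ((n : ℝ) + 1 - σ)⌉₊

/-- The bound `C_ε R^(σ+ε)` for the `p`-th powers of the norms on the windows. -/
def FullBound (n : ℕ) (p σ : ℝ) : Prop := ∀ ε : ℝ, 0 < ε → ∃ C : ℝ, ∀ R : ℕ, 2 ≤ R →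
  normPow (n := n) p (window (n + 1) R) ≤ ENNReal.ofReal (C * (R : ℝ) ^ (σ + ε))

/-- The bound `C R^ε` for all but a proportion `R^(-A)` of the sets of `⌈R^(n+1-σ)⌉` unit cubes. -/
def AlmostAll (n : ℕ) (p σ : ℝ) : Prop := ∀ A ε : ℝ, 0 < ε → ∃ C : ℝ, ∀ R : ℕ, 2 ≤ R →
  ({I : Finset (Fin (n + 1) → Fin (2 * R)) | I.card = number n σ R ∧
    ¬ normPow p (⋃ j ∈ I, unitCube R j) ≤ ENNReal.ofReal (C * (R : ℝ) ^ ε)}.ncard : ℝ) ≤
    (R : ℝ) ^ (-A) * (((2 * R) ^ (n + 1)).choose (number n σ R) : ℕ)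

/-- The bound `C R^ε` for at least a proportion `R^(-A)` of the sets of `⌈R^(n+1-σ)⌉` unit cubes,
for some `A`. -/
def Some (n : ℕ) (p σ : ℝ) : Prop := ∀ ε : ℝ, 0 < ε → ∃ A C : ℝ, ∀ R : ℕ, 2 ≤ R →
  (R : ℝ) ^ (-A) * (((2 * R) ^ (n + 1)).choose (number n σ R) : ℕ) ≤
    ({I : Finset (Fin (n + 1) → Fin (2 * R)) | I.card = number n σ R ∧
      normPow p (⋃ j ∈ I, unitCube R j) ≤ ENNReal.ofReal (C * (R : ℝ) ^ ε)}.ncard : ℝ)

open Pool.Agent.N248.RC Pool.Agent.N248.RR in
lemma ext_eq {n : ℕ} (f : EuclideanSpace ℝ (Fin n) → ℂ) :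
    ext f = Eo (mc n) (ker (Pa n)) f := by
  ext x
  have hc : cube n = cub n := rfl
  unfold ext Eo mc
  rw [hc]
  refine setIntegral_congr_fun (cub_meas n) fun ξ hξ => ?_
  simp only
  congr 1
  unfold ker Pa ex
  rw [indicator_of_mem hξ]
  congr 1
  unfold sPhi
  rw [inner_smul_left, Phi_inner]
  simp only [conj_trivial]
  have e : (∑ j, (x j.castSucc * ξ j + x (Fin.last n) * ξ j ^ 2) : ℝ) =
      ∑ j, ξ j * x j.castSucc + (∑ j, ξ j ^ 2) * x (Fin.last n) := by
    rw [Finset.sum_add_distrib, Finset.sum_mul]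
    congr 1
    · exact Finset.sum_congr rfl fun j _ => mul_comm _ _
    · exact Finset.sum_congr rfl fun j _ => mul_comm _ _
  rw [e]
  push_cast
  ring

open Pool.Agent.N248.RC Pool.Agent.P8H75.RP in
lemma normPow_eq {n : ℕ} (p : ℝ) (S : Set (EuclideanSpace ℝ (Fin (n + 1)))) :
    normPow p S = opP p S := by
  unfold normPow opP
  simp_rw [ext_eq]

open Pool.Agent.N248.RC Pool.Agent.P8H75.RP in
lemma samples_of_gd (n : ℕ) (B C R κ τ : ℝ) (S Ω : Set (EuclideanSpace ℝ (Fin (n + 1))))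
    (h : Gd n C R κ τ B S Ω) : Samples n B C R κ τ S Ω := by
  unfold Samples
  simp_rw [ext_eq]
  exact h

lemma ncard_filter {α : Type*} [DecidableEq α] (J : Finset α) (k : ℕ) (P : Finset α → Prop)
    [DecidablePred P] :
    {I : Finset α | I ⊆ J ∧ I.card = k ∧ P I}.ncard =
      ((Finset.powersetCard k J).filter P).card := by
  rw [← Set.ncard_coe_finset]
  congr 1
  ext I
  simp only [mem_ofPred_eq, Finset.coe_filter, Finset.mem_powersetCard]
  tauto

lemma ncard_univ {α : Type*} [DecidableEq α] [Fintype α] (k : ℕ) (P : Finset α → Prop)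
    [DecidablePred P] :
    {I : Finset α | I.card = k ∧ P I}.ncard =
      ((Finset.powersetCard k Finset.univ).filter P).card := by
  rw [← ncard_filter]
  congr 1
  ext I
  simp

open Pool.Agent.N248.RC Pool.Agent.P8H75.RP in
lemma full_iff (n : ℕ) (p σ : ℝ) : FullBound n p σ ↔ Fa n p σ := by
  unfold FullBound Fa
  simp_rw [normPow_eq]
  exact Iff.rfl

open Pool.Agent.N248.RC Pool.Agent.P8H75.RP in
lemma all_iff (n : ℕ) (p σ : ℝ) : AlmostAll n p σ ↔ Fb n p σ := by
  classical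
  unfold AlmostAll Fb
  simp_rw [normPow_eq, ncard_univ]
  exact Iff.rfl

open Pool.Agent.N248.RC Pool.Agent.P8H75.RP in
lemma some_iff (n : ℕ) (p σ : ℝ) : Some n p σ ↔ Fc n p σ := by
  classical
  unfold Some Fc
  simp_rw [normPow_eq, ncard_univ]
  exact Iff.rfl

open Pool.Agent.N248.RC Pool.Agent.P8H75.RP in
/-- **The restriction conjecture for the paraboloid on random sets of positions.** Let `d = n + 1`.

(1) For all `A, B` there is `C` such that for `R ≥ 2` and any finite family of pairwise disjoint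
measurable cells `Q_i ⊆ B_R`, `i ∈ J`, of volume at most `κ`, where `κ ≥ R^(-B)`: all but a
proportion `R^(-A)` of the unions `S` of `k` of the `N = |J|` cells sample all the functions `Ef`,
`|f| ≤ 1`: for all `f` and all `p ≥ 2`, with `Ω = ⋃_{i ∈ J} Q_i`,
`∫_S |Ef|^p ≤ C^p ((k/N) ∫_Ω |Ef|^p + κ (log R)³)` and
`(k/N) ∫_Ω |Ef|^p ≤ C^p (∫_S |Ef|^p + κ (log R)³)`, and similarly for the superlevel sets.

(2) For all but a proportion `R^(-A)` of the sets of `k = τ (2R)^d` unit cubes of the window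
`[-R,R)^d`, `∫_S |Ef|^p ≤ C (log R)³ (τ R^(1/2) + 1)` for all `|f| ≤ 1` at the critical exponent
`p = 2d/(d-1)`.

(3) For `p ≥ 2` and `0 ≤ σ ≤ d` the following are equivalent: the bound `C_ε R^(σ+ε)` for the
supremum over `|f| ≤ 1` of the integral of `|Ef|^p` over the window; the bound `C R^ε` for this
supremum on `S` for all but a proportion `R^(-A)` of the sets `S` of `⌈R^(d-σ)⌉` unit cubes, for
every `A`; and the same bound for at least a proportion `R^(-A)` of these sets, for some `A`.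

(4) The bound `C_ε R^ε` for the integral over the window (at the critical exponent, the local form
of the restriction conjecture) holds if and only if for every `σ > 0` at least a proportion
`R^(-A)` of the sets of `⌈R^(d-σ)⌉` unit cubes satisfies it. -/
theorem result (n : ℕ) (hn : 1 ≤ n) :
    (∀ A B : ℝ, 0 ≤ A → 0 ≤ B → ∃ C : ℝ, ∀ R : ℝ, 2 ≤ R → ∀ κ : ℝ, R ^ (-B) ≤ κ →
      ∀ (ι : Type) (J : Finset ι) (Q : ι → Set (EuclideanSpace ℝ (Fin (n + 1)))),
      (∀ i ∈ J, MeasurableSet (Q i) ∧ Q i ⊆ Metric.ball 0 R ∧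
        volume (Q i) ≤ ENNReal.ofReal κ) →
      (J : Set ι).PairwiseDisjoint Q → ∀ k : ℕ, 1 ≤ k → k ≤ J.card →
      ({I : Finset ι | I ⊆ J ∧ I.card = k ∧
        ¬ Samples n B C R κ (k / J.card) (⋃ i ∈ I, Q i) (⋃ i ∈ J, Q i)}.ncard : ℝ) ≤
        R ^ (-A) * (J.card.choose k : ℕ)) ∧
    (∀ A : ℝ, 0 ≤ A → ∃ C : ℝ, ∀ R k : ℕ, 2 ≤ R → 1 ≤ k → k ≤ (2 * R) ^ (n + 1) →
      ({I : Finset (Fin (n + 1) → Fin (2 * R)) | I.card = k ∧
        ¬ normPow (2 * ((n : ℝ) + 1) / n) (⋃ j ∈ I, unitCube R j) ≤ ENNReal.ofReal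
          (C * Real.log R ^ 3 *
            ((k : ℝ) / (2 * R) ^ (n + 1) * (R : ℝ) ^ (1 / 2 : ℝ) + 1))}.ncard : ℝ) ≤
        (R : ℝ) ^ (-A) * (((2 * R) ^ (n + 1)).choose k : ℕ)) ∧
    (∀ p σ : ℝ, 2 ≤ p → 0 ≤ σ → σ ≤ n + 1 →
      (FullBound n p σ ↔ AlmostAll n p σ) ∧ (FullBound n p σ ↔ Some n p σ)) ∧
    (∀ p : ℝ, 2 ≤ p → (FullBound n p 0 ↔ ∀ σ : ℝ, 0 < σ → σ ≤ n + 1 → Some n p σ)) := by
  classical
  refine ⟨?_, ?_, ?_, ?_⟩
  · intro A B hA hB
    obtain ⟨C, -, hC⟩ := main n A B hA hB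
    refine ⟨C, fun R hR κ hκ ι J Q hQ hd k hk hkJ => ?_⟩
    have hκ0 : 0 < κ := (Real.rpow_pos_of_pos (by linarith) _).trans_le hκ
    rw [ncard_filter]
    refine le_trans (Nat.cast_le.2 (Finset.card_le_card fun I hI => ?_))
      (hC R hR κ hκ ι J Q (fun i hi => (hQ i hi).1) (fun i hi => (hQ i hi).2.1)
        (fun i hi => ENNReal.toReal_le_of_le_ofReal hκ0.le (hQ i hi).2.2) hd k hk hkJ)
    rw [Finset.mem_filter] at hI ⊢
    exact ⟨hI.1, fun hgood => hI.2 (samples_of_gd n B C R κ _ _ _ hgood)⟩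
  · intro A hA
    obtain ⟨C, hC⟩ := crit hn A hA
    refine ⟨C, fun R k hR hk hkN => ?_⟩
    simp_rw [normPow_eq, ncard_univ]
    exact hC R k hR hk hkN
  · intro p σ hp hσ hσn
    rw [full_iff, all_iff, some_iff]
    have h1 := fb_of_fa (n := n) p σ hp hσ hσn
    have h2 := fc_of_fb (n := n) p σ
    have h3 := fa_of_fc (n := n) p σ hp hσ hσn
    exact ⟨⟨h1, fun h => h3 (h2 h)⟩, ⟨fun h => h2 (h1 h), h3⟩⟩
  · intro p hp
    rw [full_iff, fa_zero p hp]
    simp_rw [some_iff]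

end Pool.Agent.Results.MP_b7167f_an.RandomPositions
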