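import Mathlib
import Pool.Agent.P8H98.HG.Block
import Pool.Agent.P8H98.HG.RayAt
set_option autoImplicit false

/-! The restriction conjecture for the paraboloid in `ℝ^d`, `d = n + 1`, in the full range
`q > 2d/(d-1)`, for functions which are arbitrary (measurable) in the polar angle and of bounded
variation in the radius, and for their products over disjoint pairs of coordinates: the `n`
coordinates are split (by `e`) into `m₁` single coordinates and `m₂ ≥ 1` pairs, and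
`f(ξ) = M(a_1(ξ_(e 1)), …, a_(m₁)(ξ_(e m₁))) ∏_j e(τ_j |z_j|²) F_j(z_j)`, `z_j` being the `j`-th
pair and each `F_j` being a superposition of functions `1_P(z) e(η·z) F(z-ζ)` with `P` an
intersection of `N` half planes and `F` bounded by one and of total variation at most `V` along
every ray from the origin.  For `d = 3` this contains the indicator functions of all star-shaped
sets and all bounded functions homogeneous of degree zero about a point. -/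

namespace Pool.Agent.Results.MP_b7167f_an.StarShapedBlocks

open MeasureTheory Set Complex
open scoped ENNReal NNReal
open Pool.Agent.TH277 Pool.Agent.P8H98

/-- The extension operator of the truncated paraboloid in `ℝ^(n+1)`. -/
noncomputable def ext {n : ℕ} (f : (Fin n → ℝ) → ℂ) (y : (Fin n → ℝ) × ℝ) : ℂ :=
  ∫ ξ in Icc (-1 : Fin n → ℝ) 1,
    f ξ * cexp (2 * Real.pi * I * ((∑ j, ξ j * y.1 j + (∑ j, ξ j ^ 2) * y.2 : ℝ) : ℂ))

/-- `f(x) = 1_P(x) e(η·x) F(x-ζ)`, where `e(s) = e^{2πis}`, the set `P` is an intersection of `N`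
half planes, `η` is arbitrary, `|ζ_1|, |ζ_2| ≤ A`, and `F` is measurable, bounded by one and of
total variation at most `V` along every ray from the origin. -/
def IsAtom (A : ℝ) (V : ℝ≥0) (N : ℕ) (f : ℝ × ℝ → ℂ) : Prop :=
  ∃ (F : ℝ × ℝ → ℂ) (ζ η : ℝ × ℝ) (l : Fin N → ℝ × ℝ) (c : Fin N → ℝ),
    Measurable F ∧ (∀ x, ‖F x‖ ≤ 1) ∧
    (∀ x : ℝ × ℝ, eVariationOn (fun r : ℝ => F (r • x)) (Ioi 0) ≤ V) ∧
    |ζ.1| ≤ A ∧ |ζ.2| ≤ A ∧
    f = {x : ℝ × ℝ | ∀ i, c i < (l i).1 * x.1 + (l i).2 * x.2}.indicator fun x =>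
      cexp (2 * Real.pi * I * ((η.1 * x.1 + η.2 * x.2 : ℝ) : ℂ)) * F (x - ζ)

theorem result (m₁ m₂ n : ℕ) (hm₂ : 1 ≤ m₂) (hn : n = m₁ + 2 * m₂) (q : ℝ)
    (hq : 2 * ((n : ℝ) + 1) / n < q) (A : ℝ) (V : ℝ≥0) (N : ℕ) :
    ∃ C : ℝ≥0, ∀ (e : Fin m₁ ⊕ (Fin m₂ ⊕ Fin m₂) ≃ Fin n) (H : Type) [NormedAddCommGroup H]
      [InnerProductSpace ℂ H] [CompleteSpace H]
      (M : ContinuousMultilinearMap ℂ (fun _ : Fin m₁ => H) ℂ) (a : Fin m₁ → ℝ → H)
      (τ : Fin m₂ → ℝ)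
      (S : Fin m₂ → Type) [∀ j, MeasurableSpace (S j)] (ν : ∀ j, Measure (S j))
      [∀ j, IsFiniteMeasure (ν j)] (g : ∀ j, S j → ℝ × ℝ → ℂ),
      (∀ x, ‖M x‖ ≤ ∏ m, ‖x m‖) → (∀ m, StronglyMeasurable (a m)) →
      (∀ m, ∀ u ∈ Icc (-1 : ℝ) 1, ‖a m u‖ ≤ 1) →
      (∀ j, Measurable (Function.uncurry (g j))) → (∀ j s, IsAtom A V N (g j s)) →
      ∫⁻ y : (Fin n → ℝ) × ℝ,
        ‖ext (fun ξ => M (fun m => a m (ξ (e (Sum.inl m)))) *
          ∏ j, (cexp (2 * Real.pi * I * ((τ j * (ξ (e (Sum.inr (Sum.inl j))) ^ 2 +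
              ξ (e (Sum.inr (Sum.inr j))) ^ 2) : ℝ) : ℂ)) *
            ∫ s, g j s (ξ (e (Sum.inr (Sum.inl j))), ξ (e (Sum.inr (Sum.inr j)))) ∂ν j)) y‖ₑ ^ q
        ≤ C * ∏ j, ν j univ ^ q := by
  obtain ⟨C, hC⟩ := HG.main (HG.Cl_Ab A V N) m₁ m₂ n hm₂ hn q hq
  refine ⟨C, ?_⟩
  intro e H _ _ _ M a τ S _ ν _ g hM ham hab hg hat
  set a' : Fin m₁ → ℝ → H := fun m => (Icc (-1 : ℝ) 1).indicator (a m) with ha'
  have hM1 : ‖M‖ ≤ 1 := by
    apply ContinuousMultilinearMap.opNorm_le_bound zero_le_one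
    intro x
    rw [one_mul]
    exact hM x
  have hA : ∀ m, HT.Adm (a' m) := by
    intro m
    constructor
    · exact (ham m).indicator measurableSet_Icc
    · intro u
      by_cases h : u ∈ Icc (-1 : ℝ) 1
      · simp only [ha', indicator_of_mem h]
        exact hab m u h
      · simp only [ha', indicator_of_notMem h, norm_zero]
        exact zero_le_one
  have hat' : ∀ j s, HG.Ab A V N (g j s) := by
    intro j s
    obtain ⟨F, ζ, η, l, c, h1, h2, h3, h4, h5, h6⟩ := hat j s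
    exact ⟨F, ζ, η, l, c, ⟨h1, h2, h3⟩, h4, h5, h6⟩
  have h1 := hC e H M a' hM1 hA τ S ν g hg hat'
  refine le_trans (le_of_eq ?_) h1
  apply lintegral_congr
  intro y
  congr 2
  unfold ext HT.EE
  apply setIntegral_congr_fun measurableSet_Icc
  intro ξ hξ
  have hc : ∀ m, ξ m ∈ Icc (-1 : ℝ) 1 := fun m => ⟨hξ.1 m, hξ.2 m⟩
  have e1 : (fun m => a' m ((CB.Phi e ξ).1 m)) = fun m => a m (ξ (e (Sum.inl m))) := by
    ext m
    show a' m (ξ (e (Sum.inl m))) = _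
    simp only [ha', indicator_of_mem (hc _)]
  have e2 : ∀ j, HG.cq (τ j) (ν j) (g j) ((CB.Phi e ξ).2 j) =
      cexp (2 * Real.pi * I * ((τ j * (ξ (e (Sum.inr (Sum.inl j))) ^ 2 +
        ξ (e (Sum.inr (Sum.inr j))) ^ 2) : ℝ) : ℂ)) *
      ∫ s, g j s (ξ (e (Sum.inr (Sum.inl j))), ξ (e (Sum.inr (Sum.inr j)))) ∂ν j := by
    intro j
    have hz : (CB.Phi e ξ).2 j = (ξ (e (Sum.inr (Sum.inl j))), ξ (e (Sum.inr (Sum.inr j)))) := rfl
    have hQ : (CB.Phi e ξ).2 j ∈ CB.Q2 := by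
      rw [hz]
      exact ⟨⟨(hc _).1, (hc _).1⟩, ⟨(hc _).2, (hc _).2⟩⟩
    unfold HG.cq HG.sq CS.sup
    simp only [indicator_of_mem hQ]
    rw [hz]
    rfl
  show _ = _ * (M (fun m => a' m ((CB.Phi e ξ).1 m)) *
    ∏ j, HG.cq (τ j) (ν j) (g j) ((CB.Phi e ξ).2 j))
  rw [e1]
  simp only [e2]
  exact mul_comm _ _

end Pool.Agent.Results.MP_b7167f_an.StarShapedBlocks
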